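import Pool.Agent.Helper26.CL.St
import Pool.Agent.Helper84.LE.M_Box

/-! # Project CM (MP_65faa7), module C1w: the boundary weight -/

set_option autoImplicit false

open scoped BigOperators ENNReal Topology
open Pool.LE Pool.NL Filter

namespace Pool.CN

namespace C1wM

theorem mem_Bn {d n : ℕ} {x : Zd d} : x ∈ Bn d n ↔ ∀ i, 0 ≤ x i ∧ x i < n := by
  unfold Bn
  rw [Fintype.mem_piFinset]
  exact forall_congr' fun i => Finset.mem_Ico

theorem nb_coord {d : ℕ} {b u : Zd d} (h : u ∈ nb b) (i : Fin d) :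
    b i - 1 ≤ u i ∧ u i ≤ b i + 1 := by
  rw [mem_nb] at h
  obtain ⟨j, h | h⟩ := h
  · rw [h, Pi.add_apply]
    by_cases hij : i = j
    · subst hij
      rw [Pi.single_eq_same]
      omega
    · rw [Pi.single_eq_of_ne hij]
      omega
  · rw [h, Pi.sub_apply]
    by_cases hij : i = j
    · subst hij
      rw [Pi.single_eq_same]
      omega
    · rw [Pi.single_eq_of_ne hij]
      omega

theorem inv_sq_le {a c : ℝ} (ha : 0 < a) (hc : 0 < c) (h : c ≤ 2 * a) :
    1 / a ^ 2 ≤ 4 * (1 / c ^ 2) := by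
  rw [mul_one_div, div_le_div_iff₀ (by positivity) (by positivity)]
  nlinarith [mul_self_le_mul_self hc.le h]

theorem term_nonneg {d : ℕ} (n : ℕ) (b : Zd d) (i : Fin d) :
    (0 : ℝ) ≤ 1 / ((b i : ℝ) + 1) ^ 2 + 1 / ((n : ℝ) - b i) ^ 2 := by positivity

end C1wM

open C1wM in
theorem C1wM.main : StC1w := by
  intro d n hd b hb
  have hb' := mem_Bn.1 hb
  refine ⟨Finset.sum_nonneg fun i _ => term_nonneg n b i, ?_, ?_⟩
  · intro u hu hun
    have hu' := mem_Bn.1 hun
    unfold wb
    rw [Finset.mul_sum]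
    refine Finset.sum_le_sum fun i _ => ?_
    obtain ⟨h1, h2⟩ := nb_coord hu i
    obtain ⟨h3, h4⟩ := hb' i
    obtain ⟨h5, h6⟩ := hu' i
    have e1 : (0 : ℝ) < (u i : ℝ) + 1 := by
      have : (0 : ℝ) ≤ u i := by exact_mod_cast h5
      linarith
    have e2 : (0 : ℝ) < (b i : ℝ) + 1 := by
      have : (0 : ℝ) ≤ b i := by exact_mod_cast h3
      linarith
    have e3 : (b i : ℝ) + 1 ≤ 2 * ((u i : ℝ) + 1) := by
      have : b i + 1 ≤ 2 * (u i + 1) := by omega
      exact_mod_cast this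
    have e4 : (0 : ℝ) < (n : ℝ) - u i := by
      have : (0 : ℤ) < (n : ℤ) - u i := by omega
      exact_mod_cast this
    have e5 : (0 : ℝ) < (n : ℝ) - b i := by
      have : (0 : ℤ) < (n : ℤ) - b i := by omega
      exact_mod_cast this
    have e6 : (n : ℝ) - b i ≤ 2 * ((n : ℝ) - u i) := by
      have : (n : ℤ) - b i ≤ 2 * ((n : ℤ) - u i) := by omega
      exact_mod_cast this
    rw [mul_add]
    exact add_le_add (inv_sq_le e1 e2 e3) (inv_sq_le e4 e5 e6)
  · obtain ⟨i, -, hi⟩ := Finset.exists_min_image (Finset.univ : Finset (Fin d))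
      (fun i => min (b i + 1) ((n : ℤ) - b i)) ⟨⟨0, hd⟩, Finset.mem_univ _⟩
    obtain ⟨h1, h2⟩ := hb' i
    have hpos : 1 ≤ min (b i + 1) ((n : ℤ) - b i) := by
      rw [le_min_iff]
      omega
    set R : ℕ := (min (b i + 1) ((n : ℤ) - b i)).toNat with hR
    have hRz : (R : ℤ) = min (b i + 1) ((n : ℤ) - b i) := Int.toNat_of_nonneg (by omega)
    have hR1 : 1 ≤ R := by omega
    have hcase : (b i + 1 = R ∨ (n : ℤ) - b i = R) := by
      rw [hRz]
      rcases min_choice (b i + 1) ((n : ℤ) - b i) with h | h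
      · exact Or.inl h.symm
      · exact Or.inr h.symm
    have hR0 : (0 : ℝ) ≤ R := Nat.cast_nonneg R
    have hsum : ∀ t : ℝ, t ≤ 1 / ((b i : ℝ) + 1) ^ 2 + 1 / ((n : ℝ) - b i) ^ 2 → t ≤ wb n b := by
      intro t ht
      refine le_trans ht ?_
      unfold wb
      exact Finset.single_le_sum (f := fun i => 1 / ((b i : ℝ) + 1) ^ 2 + 1 / ((n : ℝ) - b i) ^ 2)
        (fun j _ => term_nonneg n b j) (Finset.mem_univ i)
    refine ⟨R, i, hR1, ?_, ?_, ?_⟩
    · intro y hy
      rw [mem_Bn]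
      intro j
      have h3 := abs_le.1 (mem_bx.1 hy j)
      have h4 := hi j (Finset.mem_univ j)
      rw [← hRz, le_min_iff] at h4
      rw [Pi.add_apply]
      omega
    · rcases hcase with h | h
      · left
        have h' : (b i : ℝ) + 1 = R := by exact_mod_cast h
        rw [h', abs_of_nonneg hR0]
      · right
        have h' : (n : ℝ) - b i = R := by exact_mod_cast h
        rw [h', abs_of_nonneg hR0]
    · apply hsum
      rcases hcase with h | h
      · have h' : (b i : ℝ) + 1 = R := by exact_mod_cast h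
        rw [h']
        have : (0 : ℝ) ≤ 1 / ((n : ℝ) - b i) ^ 2 := by positivity
        linarith
      · have h' : (n : ℝ) - b i = R := by exact_mod_cast h
        rw [h']
        have : (0 : ℝ) ≤ 1 / ((b i : ℝ) + 1) ^ 2 := by positivity
        linarith

theorem hC1w (_ : StBox) (_ : StBn) : StC1w := C1wM.main

end Pool.CN
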